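import Pool.Agent.H336.Tay.Piece

/-!
# The Brown-Erdős-Sós conjecture for linear triple systems with a non-trivial componentwise operation

A *weak near-unanimity operation* on a set `X` is a map `w : X^m → X`, `m ≥ 2`, with
`w(x,...,x) = x` and `w(y,x,...,x) = w(x,y,x,...,x) = ... = w(x,...,x,y)`
(`Pool.Agent.H336.Tay.IsWnu`). For example: semilattice operations and all commutative idempotent
operations (`m = 2`), majority operations (`m = 3`), near-unanimity operations, `t (x_1 + ... + x_m)` on
finite abelian groups whose exponent divides `t m - 1`.

A *weak near-unanimity piece* is a set of triples which is a relation between three disjoint sets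
`X`, `Y`, `Z` of vertices, closed under the componentwise application of **some** (arbitrary) weak
near-unanimity operations on `X`, on `Y` and on `Z`, of the same arity. It is *linear* if two
different triples have at most one vertex in common. Let every `k` vertices of a 3-graph `H` on
`n ≥ k` vertices span fewer than `k - 3` edges. Then the union of any `L` linear weak near-unanimity
pieces contained in `H` has at most `√(k - 4) L (n/3)^{3/2}` edges. So the conjecture holds, for every
`k`, for the 3-graphs that are unions of `L = o(n^{1/2})` such pieces. The exponent is optimal: see the
grids in the starting file `MajorityPieces`.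

By a theorem of Maróti and McKenzie a finite idempotent algebra has a weak near-unanimity term as soon
as it satisfies any identities which are not satisfied by projections. So this includes all linear
pieces which are closed under any idempotent componentwise operations with such identities
(semilattices, groups and quasigroups with their Mal'tsev operations, lattices, Gumm operations, and
mixtures of them). This remark is not used in the proof.

Idea of the proof. Let `θ₁`, `θ₂`, `θ₃` be the kernels of the three coordinates of one piece `E`; they
are congruences with `θᵢ ∧ θⱼ = 0`. The main point is that every class `D` of `κ = θ₁ ∧ (θ₂ ∨ θ₃)` has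
at most `k - 4` elements. Let `E` be a smallest counterexample. Put `c ∘ z = w(z,c,...,c)`, and let `t`
be such that `R_c = (c ∘)^t` is idempotent for all `c`. By the term condition (`κ` is centralized by
`θ₂ ∨ θ₃`) the map `R_c` is injective on `D` for each `c` in the class `C` of `θ₂ ∨ θ₃` which contains
`D`. The set `R_c(E)` is closed under `R_c w`, so it would be a smaller counterexample unless
`R_c = id`; in the same way `C = E`. Therefore `(y ∘)^{t-1} w(x,z,y,...,y)` is a Mal'tsev operation of
`E`, and for these the claim was proved in `Pool.Agent.H336.Gumm`: `D` lies in a Latin square in which
vertices can be added one by one such that `v` vertices span at least `v - 3` triples. Finally, if a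
class `C` of `θ₂ ∨ θ₃` has `b` second and `c` third vertices then
`|C| ≤ min ((k - 4) |X|, b c) ≤ √((k - 4) |X|) √(b c)`, and the Cauchy-Schwarz inequality shows
`|E| ≤ √((k - 4) |X| |Y| |Z|)`.
-/

set_option autoImplicit false

namespace Pool.Agent.Results.MP_c82047_co.WeakNearUnanimity

open Pool.Agent.H336.Gumm Pool.Agent.H336.Tay

/-- Let every `k` vertices of `H` span fewer than `k - 3` triples, where `k` is at most the number `n` of
vertices. If `F 0, …, F (L - 1)` are linear weak near-unanimity pieces contained in `H` then their
union has at most `√(k - 4) L (n/3)^{3/2}` elements. -/
theorem result (k L : ℕ) (V : Type) [Fintype V] (hk : k ≤ Fintype.card V) (H : Set (Finset V))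
    (hH : Free k H) (F : Fin L → Set (Finset V)) (hF : ∀ i, WnuPiece (F i))
    (hl : ∀ i, Linear (F i)) (hFH : ∀ i, F i ⊆ H) :
    ((⋃ i, F i).ncard : ℝ) ≤
      Real.sqrt (k - 4) * L * ((Fintype.card V : ℝ) / 3) ^ (3 / 2 : ℝ) :=
  wupper k L V hk H hH F hF hl hFH

end Pool.Agent.Results.MP_c82047_co.WeakNearUnanimity
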